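import Pool.Agent.helper42.CQ.SpecC

/-!
# Row cq:L5C of MP_ba8873_co
-/

set_option autoImplicit false

namespace Pool.Agent.helper42.CQ

open Finset Pool.Agent.helper24.CG

theorem L5C_sum {β : Type} [DecidableEq β] (P S : Finset β) (f : β → ℝ) (h : S ⊆ P) :
    ∑ e ∈ S, f e = ∑ e ∈ P, if e ∈ S then f e else 0 := by
  rw [Finset.sum_ite_mem, Finset.inter_eq_right.2 h]

theorem L5C_card {β : Type} [DecidableEq β] (P S : Finset β) (h : S ⊆ P) :
    (S.card : ℝ) = ∑ e ∈ P, if e ∈ S then (1 : ℝ) else 0 := by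
  rw [← L5C_sum P S (fun _ => (1 : ℝ)) h]
  simp

theorem L5C_pairs {V : Type} [DecidableEq V] (K : Finset V) :
    ((K.powersetCard 2).card : ℝ) ≤ (K.card : ℝ) ^ 2 / 2 := by
  rw [Finset.card_powersetCard, Nat.cast_choose_two]
  have : (0 : ℝ) ≤ (K.card : ℝ) := Nat.cast_nonneg _
  nlinarith

theorem L5C : L5C_stmt := by
  classical
  intro V _ K G A B w C T a χ hGA hAB hBK hw hC hT hCT ha ha1 hχ hχa
  set P := K.powersetCard 2 with hP
  set m : Finset V → ℝ := fun e => max 0 (w e - a) with hm
  have hm0 : ∀ e, 0 ≤ m e := fun e => le_max_left _ _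
  have hmχ : ∀ e, m e ≤ χ := by
    intro e
    have := (hw e).2
    exact max_le hχ (by linarith)
  set S1 := G.powersetCard 2 ∩ C with hS1
  set S2 := ((A.powersetCard 2 \ G.powersetCard 2) ∩ C).filter (fun e => ¬ Disjoint e G) with hS2
  set S3 := ((B.powersetCard 2 \ A.powersetCard 2) ∩ C).filter (fun e => ¬ Disjoint e G) with hS3
  set S4 := ((A.powersetCard 2 \ G.powersetCard 2) ∩ C).filter (fun e => Disjoint e G) with hS4
  set S5 := ((B.powersetCard 2 \ A.powersetCard 2) ∩ C).filter (fun e => Disjoint e G) with hS5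
  have h1 : S1 ⊆ P := fun e he => hC (Finset.mem_inter.1 he).2
  have h2 : S2 ⊆ P := fun e he => hC (Finset.mem_inter.1 (Finset.mem_filter.1 he).1).2
  have h3 : S3 ⊆ P := fun e he => hC (Finset.mem_inter.1 (Finset.mem_filter.1 he).1).2
  have h4 : S4 ⊆ P := fun e he => hC (Finset.mem_inter.1 (Finset.mem_filter.1 he).1).2
  have h5 : S5 ⊆ P := fun e he => hC (Finset.mem_inter.1 (Finset.mem_filter.1 he).1).2
  have key : ∀ e ∈ P, (if e ∈ T then (χ - m e) else 0) + (if e ∈ S1 then m e else 0)
      + (if e ∈ S2 then m e else 0) + (if e ∈ S3 then m e else 0)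
      + χ * ((if e ∈ S4 then (1 : ℝ) else 0) + (if e ∈ S5 then (1 : ℝ) else 0)) ≤ χ := by
    intro e heP
    have hm0' := hm0 e
    have hmχ' := hmχ e
    have he2 : e.card = 2 := (Finset.mem_powersetCard.1 heP).2
    by_cases heC : e ∈ C
    · by_cases hd : Disjoint e G
      · have hnT : e ∉ T := hCT e heC hd
        have hn1 : e ∉ S1 := by
          intro h
          have hsub := (Finset.mem_powersetCard.1 (Finset.mem_inter.1 h).1).1
          have : e = ∅ := by
            have := (Finset.disjoint_self_iff_empty e).1 (hd.mono_right hsub)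
            exact this
          rw [this] at he2
          simp at he2
        have hn2 : e ∉ S2 := fun h => (Finset.mem_filter.1 h).2 hd
        have hn3 : e ∉ S3 := fun h => (Finset.mem_filter.1 h).2 hd
        have hn45 : ¬ (e ∈ S4 ∧ e ∈ S5) := by
          rintro ⟨h, h'⟩
          have a1 := (Finset.mem_sdiff.1 (Finset.mem_inter.1 (Finset.mem_filter.1 h).1).1).1
          have a2 := (Finset.mem_sdiff.1 (Finset.mem_inter.1 (Finset.mem_filter.1 h').1).1).2
          exact a2 a1
        rw [if_neg hnT, if_neg hn1, if_neg hn2, if_neg hn3]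
        by_cases b4 : e ∈ S4
        · have b5 : e ∉ S5 := fun h => hn45 ⟨b4, h⟩
          rw [if_pos b4, if_neg b5]
          linarith
        · rw [if_neg b4]
          by_cases b5 : e ∈ S5
          · rw [if_pos b5]; linarith
          · rw [if_neg b5]; linarith
      · have hn4 : e ∉ S4 := fun h => hd (Finset.mem_filter.1 h).2
        have hn5 : e ∉ S5 := fun h => hd (Finset.mem_filter.1 h).2
        rw [if_neg hn4, if_neg hn5]
        have hT' : (if e ∈ T then (χ - m e) else 0) ≤ χ - m e := by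
          split_ifs
          · exact le_rfl
          · linarith
        have hn12 : ¬ (e ∈ S1 ∧ e ∈ S2) := by
          rintro ⟨h, h'⟩
          have a1 := (Finset.mem_inter.1 h).1
          have a2 := (Finset.mem_sdiff.1 (Finset.mem_inter.1 (Finset.mem_filter.1 h').1).1).2
          exact a2 a1
        have hn13 : ¬ (e ∈ S1 ∧ e ∈ S3) := by
          rintro ⟨h, h'⟩
          have a1 := Finset.mem_powersetCard.1 (Finset.mem_inter.1 h).1
          have a2 := (Finset.mem_sdiff.1 (Finset.mem_inter.1 (Finset.mem_filter.1 h').1).1).2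
          exact a2 (Finset.mem_powersetCard.2 ⟨a1.1.trans hGA, a1.2⟩)
        have hn23 : ¬ (e ∈ S2 ∧ e ∈ S3) := by
          rintro ⟨h, h'⟩
          have a1 := (Finset.mem_sdiff.1 (Finset.mem_inter.1 (Finset.mem_filter.1 h).1).1).1
          have a2 := (Finset.mem_sdiff.1 (Finset.mem_inter.1 (Finset.mem_filter.1 h').1).1).2
          exact a2 a1
        by_cases b1 : e ∈ S1
        · have b2 : e ∉ S2 := fun h => hn12 ⟨b1, h⟩
          have b3 : e ∉ S3 := fun h => hn13 ⟨b1, h⟩
          rw [if_pos b1, if_neg b2, if_neg b3]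
          linarith
        · rw [if_neg b1]
          by_cases b2 : e ∈ S2
          · have b3 : e ∉ S3 := fun h => hn23 ⟨b2, h⟩
            rw [if_pos b2, if_neg b3]
            linarith
          · rw [if_neg b2]
            by_cases b3 : e ∈ S3
            · rw [if_pos b3]; linarith
            · rw [if_neg b3]; linarith
    · have n1 : e ∉ S1 := fun h => heC (Finset.mem_inter.1 h).2
      have n2 : e ∉ S2 := fun h => heC (Finset.mem_inter.1 (Finset.mem_filter.1 h).1).2
      have n3 : e ∉ S3 := fun h => heC (Finset.mem_inter.1 (Finset.mem_filter.1 h).1).2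
      have n4 : e ∉ S4 := fun h => heC (Finset.mem_inter.1 (Finset.mem_filter.1 h).1).2
      have n5 : e ∉ S5 := fun h => heC (Finset.mem_inter.1 (Finset.mem_filter.1 h).1).2
      rw [if_neg n1, if_neg n2, if_neg n3, if_neg n4, if_neg n5]
      split_ifs <;> linarith
  have hsum := Finset.sum_le_sum key
  rw [Finset.sum_add_distrib, Finset.sum_add_distrib, Finset.sum_add_distrib,
    Finset.sum_add_distrib, ← Finset.mul_sum, Finset.sum_add_distrib, ← L5C_sum P T _ hT,
    ← L5C_sum P S1 _ h1, ← L5C_sum P S2 _ h2, ← L5C_sum P S3 _ h3, ← L5C_card P S4 h4,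
    ← L5C_card P S5 h5, Finset.sum_const, nsmul_eq_mul] at hsum
  have hP2 : (P.card : ℝ) * χ ≤ χ * (K.card : ℝ) ^ 2 / 2 := by
    have := L5C_pairs K
    have := mul_le_mul_of_nonneg_right this hχ
    calc (P.card : ℝ) * χ ≤ (K.card : ℝ) ^ 2 / 2 * χ := this
      _ = χ * (K.card : ℝ) ^ 2 / 2 := by ring
  change ∑ e ∈ T, (χ - m e) ≤ χ * (K.card : ℝ) ^ 2 / 2 - ∑ e ∈ S1, m e - ∑ e ∈ S2, m e
    - ∑ e ∈ S3, m e - χ * ((S4.card : ℝ) + (S5.card : ℝ))
  linarith

end Pool.Agent.helper42.CQ
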