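import Pool.Agent.helper42.CQ.SpecC

/-!
# Row cq:LM5 of MP_ba8873_co (Lemma 5)
-/

set_option autoImplicit false

namespace Pool.Agent.helper42.CQ

open Finset Pool.Agent.helper24.CG

theorem LM5_diff {V : Type} [DecidableEq V] (A B : Finset V) (C : Finset (Finset V))
    (w : Finset V → ℝ) (h : A ⊆ B) :
    ∑ e ∈ B.powersetCard 2 ∩ C, w e = ∑ e ∈ A.powersetCard 2 ∩ C, w e +
      ∑ e ∈ (B.powersetCard 2 \ A.powersetCard 2) ∩ C, w e := by
  rw [← Finset.sum_union]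
  · congr 1
    ext e
    simp only [Finset.mem_inter, Finset.mem_union, Finset.mem_sdiff, Finset.mem_powersetCard]
    constructor
    · rintro ⟨⟨h1, h2⟩, h3⟩
      by_cases hA : e ⊆ A
      · exact Or.inl ⟨⟨hA, h2⟩, h3⟩
      · exact Or.inr ⟨⟨⟨h1, h2⟩, fun h => hA h.1⟩, h3⟩
    · rintro (⟨⟨h1, h2⟩, h3⟩ | ⟨⟨⟨h1, h2⟩, -⟩, h3⟩)
      · exact ⟨⟨h1.trans h, h2⟩, h3⟩
      · exact ⟨⟨h1, h2⟩, h3⟩
  · rw [Finset.disjoint_left]
    intro e he he'
    exact (Finset.mem_sdiff.1 (Finset.mem_inter.1 he').1).2 (Finset.mem_inter.1 he).1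

theorem LM5_card {V : Type} [DecidableEq V] (A B : Finset V) (h : A ⊆ B) :
    (B.card : ℝ) = (A.card : ℝ) + ((B \ A).card : ℝ) := by
  have := Finset.card_sdiff_add_card_eq_card h
  rw [← this]
  push_cast
  ring

theorem LM5 (hRVI : RVI_stmt) (hL5A : L5A_stmt) (hL5B : L5B_stmt) (hL5C : L5C_stmt) : LM5_stmt := by
  classical
  intro V _ K G A B w C T l a χ f δ hGA hAB hBK hw hC hT hCT hl ha ha1 hχ hχa hχ2 hf hf1 hA hB hδ hg
  obtain ⟨a1, a2⟩ := hL5A V G w C l a hw hl ha ha1 (by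
    refine le_trans ?_ hA
    have : (G.card : ℝ) ≤ (A.card : ℝ) := by exact_mod_cast Finset.card_le_card hGA
    exact mul_le_mul_of_nonneg_left this ha.le)
  obtain ⟨b1, b2⟩ := hL5B V G A B w C a hGA hAB hw ha
  obtain ⟨c1, c2⟩ := hL5B V G G A w C a (Finset.Subset.refl G) hGA hw ha
  have hX := hL5C V K G A B w C T a χ hGA hAB hBK hw hC hT hCT ha ha1 hχ hχa
  have dA := LM5_diff G A C w hGA
  have dB := LM5_diff A B C w hAB
  have kA := LM5_card G A hGA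
  have kB := LM5_card A B hAB
  rw [Finset.sdiff_self, Finset.card_empty, Nat.cast_zero, zero_mul, zero_add] at c2
  have hm0 : ∀ S : Finset (Finset V), 0 ≤ ∑ e ∈ S, max 0 (w e - a) := fun S =>
    Finset.sum_nonneg fun e _ => le_max_left _ _
  set γ : ℝ := (G.card : ℝ) with hγ
  set e : ℝ := ((A \ G).card : ℝ) with he
  set η : ℝ := ((B \ A).card : ℝ) with hη
  set dG := ∑ e ∈ G.powersetCard 2 ∩ C, max 0 (w e - a) with hdG
  set dE := ∑ e ∈ ((A.powersetCard 2 \ G.powersetCard 2) ∩ C).filter (fun e => ¬ Disjoint e G),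
      max 0 (w e - a) with hdE
  set dF := ∑ e ∈ ((B.powersetCard 2 \ A.powersetCard 2) ∩ C).filter (fun e => ¬ Disjoint e G),
      max 0 (w e - a) with hdF
  set nE : ℝ := ((((A.powersetCard 2 \ G.powersetCard 2) ∩ C).filter
    (fun e => Disjoint e G)).card : ℝ) with hnE
  set nX : ℝ := ((((B.powersetCard 2 \ A.powersetCard 2) ∩ C).filter
    (fun e => Disjoint e G)).card : ℝ) with hnX
  set SG := ∑ v ∈ G, (l - min (∑ u ∈ G.erase v, if {v, u} ∈ C then w {v, u} else 0) l / 2) with hSG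
  set wG := ∑ e ∈ G.powersetCard 2 ∩ C, w e with hwG
  set wA := ∑ e ∈ A.powersetCard 2 ∩ C, w e with hwA
  set wB := ∑ e ∈ B.powersetCard 2 ∩ C, w e with hwB
  set X := ∑ e ∈ T, (χ - max 0 (w e - a)) with hXd
  have hγ0 : 0 ≤ γ := Nat.cast_nonneg _
  have he0 : 0 ≤ e := Nat.cast_nonneg _
  have hη0 : 0 ≤ η := Nat.cast_nonneg _
  have main := hRVI a χ f l δ γ e η dG dE dF nE nX (γ * l - wG)
    ((γ * l - wG) - ((A.card : ℝ) * l - wA)) (SG - (γ * l - wG)) X (K.card : ℝ)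
    ha ha1 hχ hχa hχ2 hf hf1 hl hδ hγ0 he0 hη0 (hm0 _) (hm0 _) (hm0 _) (Nat.cast_nonneg _)
    (Nat.cast_nonneg _) a2 ?_ ?_ ?_ ?_ ?_ ?_ ?_ ?_
  · calc X + 2 * χ * l ^ 2 - χ * (K.card : ℝ) ^ 2 / 2 - l * δ / a
        ≤ f * (γ * l - wG) - ((γ * l - wG) - ((A.card : ℝ) * l - wA))
          - (1 - f) * (SG - (γ * l - wG)) := main
      _ = ((A.card : ℝ) * l - wA) - (1 - f) * SG := by ring
  · rw [kA, dA]
    nlinarith [c1]
  · linarith [hX]
  · rw [kB, dB] at hg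
    nlinarith [b1]
  · linarith [b2]
  · linarith [c2]
  · linarith [a1]
  · rw [← kA]; exact hA
  · rw [← kA, ← kB]; exact hB

end Pool.Agent.helper42.CQ
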